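import Pool.Agent.H45.AW.ENa

/-!
# AW-ENb: the leading form (the general form of `H45/AT/ENb`)
-/

set_option autoImplicit false

open Polynomial

noncomputable section

namespace H45.AW

open H45.AT

private theorem coe_prod {A ι : Type} [CommRing A] (p N : ℕ) (hp : p ≤ N + 1) (e : ℕ → A)
    (he : ∀ n < p, (n.factorial : A) * e n = 1) (b : ι → A) (I : Finset ι) :
    ∀ n < p, (n.factorial : A) *
      (∏ i ∈ I, ∑ l ∈ Finset.range (N + 1), C (e l * b i ^ l) * X ^ l : A[X]).coeff n =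
      (∑ i ∈ I, b i) ^ n := by
  classical
  induction I using Finset.induction_on with
  | empty =>
    intro n hn
    rcases Nat.eq_zero_or_pos n with rfl | h
    · simp
    · rw [Finset.prod_empty, Finset.sum_empty, coeff_one, if_neg h.ne', zero_pow h.ne', mul_zero]
  | insert a s ha ih =>
    intro n hn
    rw [Finset.prod_insert ha, Finset.sum_insert ha, coeff_mul, (Commute.all _ _).add_pow', Finset.mul_sum]
    refine Finset.sum_congr rfl fun m hm => ?_
    have hm' : m.1 + m.2 = n := Finset.HasAntidiagonal.mem_antidiagonal.1 hm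
    have h1 : (∑ l ∈ Finset.range (N + 1), C (e l * b a ^ l) * X ^ l : A[X]).coeff m.1 = e m.1 * b a ^ m.1 := by
      rw [finsetSum_coeff, Finset.sum_eq_single m.1]
      · rw [coeff_C_mul_X_pow, if_pos rfl]
      · intro l _ hl
        rw [coeff_C_mul_X_pow, if_neg (Ne.symm hl)]
      · intro h
        exact absurd (Finset.mem_range.2 (by omega)) h
    have h2 := ih m.2 (by omega)
    have h3 := he m.1 (by omega)
    have h4 : ((n.factorial : ℕ) : A) = (n.choose m.1 : A) * m.1.factorial * m.2.factorial := by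
      have h5 := Nat.choose_mul_factorial_mul_factorial (show m.1 ≤ n by omega)
      have h6 : n - m.1 = m.2 := by omega
      rw [h6] at h5
      rw [← h5]
      push_cast
      ring
    rw [h1, h4, nsmul_eq_mul, ← h2]
    calc (n.choose m.1 : A) * m.1.factorial * m.2.factorial * (e m.1 * b a ^ m.1 *
          (∏ i ∈ s, ∑ l ∈ Finset.range (N + 1), C (e l * b i ^ l) * X ^ l : A[X]).coeff m.2)
        = (n.choose m.1 : A) * ((m.1.factorial : A) * e m.1) * (b a ^ m.1 * (m.2.factorial *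
          (∏ i ∈ s, ∑ l ∈ Finset.range (N + 1), C (e l * b i ^ l) * X ^ l : A[X]).coeff m.2)) := by ring
      _ = _ := by rw [h3, mul_one]

/-- `X₀ ↦ C X * X ^ ω₁`, `X₁ ↦ X ^ ω₂` -/
private def Th (ω : ℕ × ℕ) (k : Type) [Field k] : MvPolynomial (Fin 2) k →+* k[X][X] :=
  MvPolynomial.eval₂Hom ((C : k[X] →+* k[X][X]).comp C) ![C X * X ^ ω.1, X ^ ω.2]

private theorem Th_mono {k : Type} [Field k] (ω u : ℕ × ℕ) (c : k) :
    Th ω k (MvPolynomial.monomial (mo u) c) = C (C c * X ^ u.1) * X ^ (ww ω u) := by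
  have h1 : ((mo u : Fin 2 →₀ ℕ) 0) = u.1 := by simp [mo]
  have h2 : ((mo u : Fin 2 →₀ ℕ) 1) = u.2 := by simp [mo]
  rw [Th, MvPolynomial.eval₂Hom_monomial, Finsupp.prod_fintype _ _ (fun i => pow_zero _), Fin.prod_univ_two,
    h1, h2]
  simp only [RingHom.comp_apply, Matrix.cons_val_zero, Matrix.cons_val_one, ww, pow_add, mul_pow, C_mul, C_pow, pow_mul]
  ring

private theorem co_Th {k : Type} [Field k] {ω : ℕ × ℕ} (hω : (1, 1) ≤ ω) (G : MvPolynomial (Fin 2) k) (s : ℕ × ℕ) :
    co G s = ((Th ω k G).coeff (ww ω s)).coeff s.1 := by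
  induction G using MvPolynomial.induction_on' with
  | monomial m c =>
    rw [← mo_surj m, co_monomial, Th_mono, coeff_C_mul_X_pow]
    generalize (m 0, m 1) = u
    by_cases h : u = s
    · subst h
      rw [if_pos rfl, if_pos rfl, coeff_C_mul_X_pow, if_pos rfl]
    · rw [if_neg h]
      by_cases h1 : ww ω s = ww ω u
      · rw [if_pos h1, coeff_C_mul_X_pow, if_neg]
        intro h2
        apply h
        have h3 : ω.1 * u.1 + ω.2 * u.2 = ω.1 * s.1 + ω.2 * s.2 := h1.symm
        rw [h2] at h3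
        have h4 := Nat.eq_of_mul_eq_mul_left (show 0 < ω.2 from hω.2) (Nat.add_left_cancel h3)
        exact Prod.ext h2.symm h4
      · rw [if_neg h1, coeff_zero]
  | add p q hp hq =>
    rw [map_add, coeff_add, coeff_add, ← hp, ← hq]
    exact MvPolynomial.coeff_add _ _ _

private theorem FU_top {k : Type} [Field k] (E : ℕ → k) (N d : ℕ) (h0 : E 0 = 1) (ω : ℕ × ℕ) (U : Finset (ℕ × ℕ))
    (z : ℕ × ℕ → k) (hz : ∀ u ∈ U, ww ω u ≠ d → z u = 0) :
    Th ω k (FU E N U z) = expand k[X] d (∏ u ∈ U.filter (fun u => ww ω u = d), ∑ l ∈ Finset.range (N + 1),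
      C (C (E l) * (C (z u) * X ^ u.1) ^ l) * X ^ l) := by
  classical
  have h1 : FU E N U z = ∏ u ∈ U.filter (fun u => ww ω u = d),
      ∑ i ∈ Finset.range (N + 1), MvPolynomial.monomial (mo (i • u)) (E i * z u ^ i) := by
    rw [FU, Finset.prod_filter]
    refine Finset.prod_congr rfl fun u hu => ?_
    by_cases h : ww ω u = d
    · rw [if_pos h]
    · rw [if_neg h, hz u hu h, Finset.sum_eq_single 0]
      · rw [pow_zero, mul_one, h0, zero_smul]
        have h2 : mo (0 : ℕ × ℕ) = 0 := by simp [mo]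
        rw [h2]
        rfl
      · intro i _ hi
        rw [zero_pow hi, mul_zero, MvPolynomial.monomial_zero]
      · intro h
        exact absurd (Finset.mem_range.2 (Nat.succ_pos N)) h
  rw [h1, map_prod, map_prod]
  refine Finset.prod_congr rfl fun u hu => ?_
  have hu2 := (Finset.mem_filter.1 hu).2
  rw [map_sum, map_sum]
  refine Finset.sum_congr rfl fun l _ => ?_
  have h3 : ww ω (l • u) = d * l := by
    rw [ww_smul, hu2, Nat.mul_comm]
  have h5 : (l • u : ℕ × ℕ).1 = u.1 * l := by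
    show l * u.1 = u.1 * l
    exact Nat.mul_comm _ _
  have h6 : (C (E l * z u ^ l) * X ^ (u.1 * l) : k[X]) = C (E l) * (C (z u) * X ^ u.1) ^ l := by
    rw [mul_pow, ← pow_mul, ← C_pow, C_mul, mul_assoc]
  have h7 : expand k[X] d (C (C (E l) * (C (z u) * X ^ u.1) ^ l) * X ^ l) =
      C (C (E l) * (C (z u) * X ^ u.1) ^ l) * X ^ (d * l) := by
    rw [map_mul, map_pow, expand_C, expand_X, ← pow_mul]
  rw [Th_mono, h3, h5, h6, h7]

theorem co_FU_top {k : Type} [Field k] (E : ℕ → k) (N d p : ℕ) (ω : ℕ × ℕ) (hω : (1, 1) ≤ ω) (hd : d ≠ 0)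
    (hE : ∀ n < p, (n.factorial : k) * E n = 1) (hp : p ≠ 0) (hN : p ≤ N + 1) (U : Finset (ℕ × ℕ)) (z : ℕ × ℕ → k)
    (hz : ∀ u ∈ U, ww ω u ≠ d → z u = 0) (s : ℕ × ℕ) :
    (¬ d ∣ ww ω s → co (FU E N U z) s = 0) ∧
      ∀ n, n < p → ww ω s = d * n → (n.factorial : k) * co (FU E N U z) s =
        ((∑ u ∈ U.filter (fun u => ww ω u = d), C (z u) * X ^ u.1) ^ n).coeff s.1 := by
  have h0 : E 0 = 1 := by
    have h := hE 0 (Nat.pos_of_ne_zero hp)
    rwa [Nat.factorial_zero, Nat.cast_one, one_mul] at h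
  have h1 := FU_top E N d h0 ω U z hz
  refine ⟨fun h => ?_, fun n hn hs => ?_⟩
  · rw [co_Th hω, h1, coeff_expand (Nat.pos_of_ne_zero hd), if_neg h, coeff_zero]
  · have h2 := coe_prod (A := k[X]) p N hN (fun l => C (E l)) (fun l hl => by
      rw [← C_eq_natCast, ← C_mul, hE l hl, C_1]) (fun u : ℕ × ℕ => C (z u) * X ^ u.1)
      (U.filter (fun u => ww ω u = d)) n hn
    rw [co_Th hω, h1, hs, coeff_expand (Nat.pos_of_ne_zero hd), if_pos (Nat.dvd_mul_right d n),
      Nat.mul_div_cancel_left n (Nat.pos_of_ne_zero hd), ← h2, ← C_eq_natCast, coeff_C_mul]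

end H45.AW

end
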