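import Pool.Agent.H45.AW.IX
import Pool.Agent.H45.AW.ENc
import Pool.Agent.H45.AT.LDb
import Pool.Agent.H45.AT.LDc
import Pool.Agent.H45.AT.TFc
import Pool.Agent.H45.AT.CTd
import Pool.Agent.H45.AT.NWa
import Pool.Agent.H45.AT.AHa

/-!
# AW-FC: the data for one character (the general form of `H45/AT/FC`, weights `ω`)
-/

set_option autoImplicit false

open Polynomial

noncomputable section

namespace H45.AW

open H45.AT

/-- The exponents of weight at most `d`. -/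
def wtri (ω : ℕ × ℕ) (d : ℕ) : Finset (ℕ × ℕ) :=
  (Finset.range (d + 1) ×ˢ Finset.range (d + 1)).filter fun u => ww ω u ≤ d

/-- The Hasse matrix of weight `k`. -/
def hm {R : Type} [CommRing R] (p : ℕ) (ω : ℕ × ℕ) (n k : ℕ) (τ : R[X]) : Matrix (ln ω k) (ln ω k) R :=
  Matrix.of fun u v => ((expand R ω.2 τ) ^ n).coeff (p * u.1.1 - v.1.1)

/-- the constant -/
def kap {p e : ℕ} {k O : Type} [Field k] [CommRing O] (D : DR p e k O) (ω : ℕ × ℕ) (d a : ℕ) : O :=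
  (∏ u ∈ (bx d (1, 1)).filter (fun u => ww ω u < d), -(D.w ^ (p - 1)) ^ (d - ww ω u)) ^ a

theorem kap_ne {p e : ℕ} {k O : Type} [Field k] [CommRing O] [IsDomain O] (D : DR p e k O) (hw0 : D.w ≠ 0)
    (ω : ℕ × ℕ) (d a : ℕ) : kap D ω d a ≠ 0 := by
  unfold kap
  refine pow_ne_zero _ (Finset.prod_ne_zero_iff.2 fun u _ => ?_)
  exact neg_ne_zero.2 (pow_ne_zero _ (pow_ne_zero _ hw0))

theorem mem_wtri {ω : ℕ × ℕ} (hω : (1, 1) ≤ ω) {d : ℕ} {u : ℕ × ℕ} : u ∈ wtri ω d ↔ ww ω u ≤ d := by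
  unfold wtri
  rw [Finset.mem_filter, Finset.mem_product, Finset.mem_range, Finset.mem_range]
  constructor
  · rintro ⟨_, h⟩
    exact h
  · intro h
    have h1 : u.1 + u.2 ≤ ww ω u := wt_le_ww hω u
    exact ⟨⟨by omega, by omega⟩, h⟩

private theorem fc_cast {p : ℕ} [Fact p.Prime] {k : Type} [Field k] [CharP k p] (c j : ℕ) :
    (c : k) ^ p ^ j = c := by
  have h : iterateFrobenius k p j (c : k) = c := map_natCast _ c
  rwa [iterateFrobenius_def] at h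

private theorem fc_hm_map {R S : Type} [CommRing R] [CommRing S] (f : R →+* S) (p : ℕ) (ω : ℕ × ℕ) (n m : ℕ) (φ : R[X]) :
    hm p ω n m (φ.map f) = (hm p ω n m φ).map f := by
  ext i j
  simp only [hm, Matrix.of_apply, Matrix.map_apply]
  rw [← map_expand, ← Polynomial.map_pow, coeff_map]

private theorem fc_det {R S : Type} [CommRing R] [CommRing S] (f : R →+* S) (p : ℕ) (ω : ℕ × ℕ) (n m : ℕ) (φ : R[X]) :
    (hm p ω n m (φ.map f)).det = f (hm p ω n m φ).det := by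
  rw [fc_hm_map, RingHom.map_det]
  rfl

private theorem fc_fact {p : ℕ} [Fact p.Prime] {k : Type} [Field k] [CharP k p] {n : ℕ} (hn : n < p) :
    (n.factorial : k) ≠ 0 := by
  have hp : p.Prime := Fact.out
  rw [Ne, CharP.cast_eq_zero_iff k p, hp.dvd_factorial]
  omega

private theorem fc_wil {p : ℕ} [Fact p.Prime] {k : Type} [Field k] [CharP k p] :
    ((p - 1).factorial : k) = -1 := by
  have h := congrArg (ZMod.castHom (dvd_refl p) k) (ZMod.wilsons_lemma p)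
  rwa [map_natCast, map_neg, map_one] at h

private theorem fc_flt {p : ℕ} [Fact p.Prime] {k : Type} [Field k] [CharP k p] {c : ℕ} (hc : (c : k) ≠ 0) :
    (c : k) ^ (p - 1) = 1 := by
  have hp : p.Prime := Fact.out
  have h := fc_cast (p := p) (k := k) c 1
  rw [pow_one] at h
  have h1 : (c : k) ^ (p - 1) * c = 1 * c := by
    rw [← pow_succ, Nat.sub_add_cancel hp.one_le, h, one_mul]
  exact mul_right_cancel₀ hc h1

private theorem fc_cne {p : ℕ} [Fact p.Prime] {k : Type} [Field k] [CharP k p] {c : ℕ} (hc : c ∈ Finset.Ico 1 p) :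
    (c : k) ≠ 0 := by
  obtain ⟨h1, h2⟩ := Finset.mem_Ico.1 hc
  rw [Ne, CharP.cast_eq_zero_iff k p]
  intro h
  exact absurd (Nat.le_of_dvd (by omega) h) (by omega)

private theorem fc_top {ω : ℕ × ℕ} (hω : (1, 1) ≤ ω) (hco : ω.1.Coprime ω.2) (M d : ℕ) (hd : d = ω.1 * ω.2 * M) :
    (wtri ω d).filter (fun u => ww ω u = d) =
      (Finset.range (M + 1)).image fun s => (ω.2 * s, ω.1 * (M - s)) := by
  have h1 : 1 ≤ ω.1 := hω.1
  have h2 : 1 ≤ ω.2 := hω.2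
  ext ⟨x, y⟩
  simp only [Finset.mem_filter, mem_wtri hω, Finset.mem_image, Finset.mem_range]
  constructor
  · rintro ⟨_, h⟩
    have h6 : ω.1 * x + ω.2 * y = ω.1 * ω.2 * M := h.trans hd
    have h7 : ω.2 ∣ x := by
      have h8 : ω.2 ∣ ω.1 * x := by
        have h9 : ω.2 ∣ ω.1 * x + ω.2 * y := by
          rw [h6]
          exact ⟨ω.1 * M, by ring⟩
        exact (Nat.dvd_add_left (dvd_mul_right _ _)).1 h9
      exact (Nat.Coprime.dvd_of_dvd_mul_left hco.symm h8)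
    obtain ⟨s, rfl⟩ := h7
    have h8 : ω.2 * (ω.1 * s + y) = ω.2 * (ω.1 * M) := by
      rw [mul_add, ← mul_assoc, mul_comm ω.2 ω.1]
      rw [← mul_assoc] at h6
      rw [h6]
      ring
    have h9 := Nat.eq_of_mul_eq_mul_left h2 h8
    have h10 : s ≤ M := by
      by_contra h
      push Not at h
      have := Nat.mul_lt_mul_of_pos_left h h1
      omega
    refine ⟨s, by omega, ?_⟩
    refine Prod.ext rfl ?_
    show ω.1 * (M - s) = y
    rw [Nat.mul_sub]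
    omega
  · rintro ⟨s, hs, h⟩
    obtain ⟨h3, h4⟩ := Prod.mk.inj h
    subst h3
    subst h4
    have h5 : ww ω (ω.2 * s, ω.1 * (M - s)) = d := by
      obtain ⟨m, hm⟩ : ∃ m, M = s + m := ⟨M - s, by omega⟩
      show ω.1 * (ω.2 * s) + ω.2 * (ω.1 * (M - s)) = d
      rw [hd, hm, Nat.add_sub_cancel_left]
      ring
    exact ⟨h5.le, h5⟩

private theorem fc_sum {p M d : ℕ} [Fact p.Prime] {F k : Type} [Field F] [Field k] [Algebra F k] [CharP k p]
    {ω : ℕ × ℕ} (hω : (1, 1) ≤ ω) (hco : ω.1.Coprime ω.2) (hdM : d = ω.1 * ω.2 * M) (τ : F[X]) (hτd : τ.natDegree = M)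
    (b : ℕ × ℕ → k) (hbτ : ∀ l ≤ M, b (ω.2 * l, ω.1 * (M - l)) = algebraMap F k (τ.coeff l)) (c j : ℕ) :
    ∑ u ∈ (wtri ω d).filter (fun u => ww ω u = d), C (((c : k) * b u) ^ p ^ j) * X ^ u.1 =
      C (c : k) * expand k ω.2 (tw p j (τ.map (algebraMap F k))) := by
  have h2 : 1 ≤ ω.2 := hω.2
  have h1 : (tw p j (τ.map (algebraMap F k))).natDegree < M + 1 := by
    unfold tw
    have e1 := natDegree_map_le (f := iterateFrobenius k p j) (p := τ.map (algebraMap F k))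
    have e2 := natDegree_map_le (f := algebraMap F k) (p := τ)
    omega
  rw [fc_top hω hco M d hdM, Finset.sum_image]
  · rw [as_sum_range_C_mul_X_pow' _ h1, map_sum, Finset.mul_sum]
    refine Finset.sum_congr rfl fun l hl => ?_
    have hl' : l ≤ M := Nat.lt_succ_iff.1 (Finset.mem_range.1 hl)
    have e4 : expand k ω.2 (X ^ l : k[X]) = X ^ (ω.2 * l) := by rw [map_pow, expand_X, ← pow_mul]
    rw [mul_pow, fc_cast, hbτ l hl', C_mul, map_mul, expand_C, e4]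
    have e3 : (tw p j (τ.map (algebraMap F k))).coeff l = (algebraMap F k (τ.coeff l)) ^ p ^ j := by
      unfold tw
      rw [coeff_map, coeff_map, iterateFrobenius_def]
    rw [e3, mul_assoc]
  · intro x _ y _ hxy
    exact Nat.eq_of_mul_eq_mul_left h2 (Prod.mk.inj hxy).1

private theorem fc_ent {p M d : ℕ} [Fact p.Prime] {F k O : Type} [Field F] [Field k] [Algebra F k] [CharP k p]
    {ω : ℕ × ℕ} (hω : (1, 1) ≤ ω) (hco : ω.1.Coprime ω.2) (hdM : d = ω.1 * ω.2 * M)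
    [CommRing O] (D : DR p (d * (p - 1)) k O) (hd : d ≠ 0) (hdp : d ∣ p - 1) {E : ℕ → O}
    (hE : ∀ n < p, (n.factorial : O) * E n = 1) (N : ℕ) (hN : p ≤ N + 1) (g : O) (hg : D.res g = 1) (τ : F[X])
    (hτd : τ.natDegree = M) (b : ℕ × ℕ → k)
    (hbτ : ∀ l ≤ M, b (ω.2 * l, ω.1 * (M - l)) = algebraMap F k (τ.coeff l)) (c j i : ℕ) (hi : i ≤ d) (x y : ℕ × ℕ)
    (hx : (1, 1) ≤ x) (hy : (1, 1) ≤ y) (hx1 : ww ω x = i) (hy1 : ww ω y = i) :
    ((i * (p - 1) / d).factorial : k) *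
        D.res (mt p (FU E N (wtri ω d) fun u => D.w ^ (d - ww ω u) * g * D.tau ((c : k) * b u) ^ p ^ j) x y) =
      (c : k) ^ (i * (p - 1) / d) *
        ((expand k ω.2 (tw p j (τ.map (algebraMap F k)))) ^ (i * (p - 1) / d)).coeff (p * x.1 - y.1) := by
  have h := ent_res1 D E N d ω hω (wtri ω d) (fun u hu => (mem_wtri hω).1 hu) hd hdp hE hN g hg
    (fun u => (c : k) * b u) j i hi x y hx hy hx1 hy1
  rw [h, fc_sum hω hco hdM τ hτd b hbτ, mul_pow, ← C_pow, coeff_C_mul]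

/-- the determinants of the blocks -/
private theorem fc_blk {p M d : ℕ} [Fact p.Prime] {F k O : Type} [Field F] [Field k] [Algebra F k] [CharP k p]
    {ω : ℕ × ℕ} (hω : (1, 1) ≤ ω) (hco : ω.1.Coprime ω.2) (hdM : d = ω.1 * ω.2 * M)
    [CommRing O] (D : DR p (d * (p - 1)) k O) (hd : d ≠ 0) (hdp : d ∣ p - 1) {E : ℕ → O}
    (hE : ∀ n < p, (n.factorial : O) * E n = 1) (N : ℕ) (hN : p ≤ N + 1) (g : O) (hg : D.res g = 1) (τ : F[X])
    (hτd : τ.natDegree = M)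
    (hH : ∀ i < d, (hm p ω (i * (p - 1) / d) i τ).det ≠ 0) (b : ℕ × ℕ → k)
    (hbτ : ∀ l ≤ M, b (ω.2 * l, ω.1 * (M - l)) = algebraMap F k (τ.coeff l)) (c : ℕ) (hc : (c : k) ≠ 0) (j i : ℕ)
    (hi : i < d) (A : Matrix (ln ω i) (ln ω i) k)
    (hA : ∀ x y, A x y = D.res (mt p (FU E N (wtri ω d) fun u =>
      D.w ^ (d - ww ω u) * g * D.tau ((c : k) * b u) ^ p ^ j) x.1 y.1)) : A.det ≠ 0 := by
  have h1 : ((i * (p - 1) / d).factorial : k) • A =
      (c : k) ^ (i * (p - 1) / d) • hm p ω (i * (p - 1) / d) i (tw p j (τ.map (algebraMap F k))) := by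
    ext x y
    rw [Matrix.smul_apply, Matrix.smul_apply, smul_eq_mul, smul_eq_mul, hA]
    have hx := (mem_ln hω).1 x.2
    have hy := (mem_ln hω).1 y.2
    exact fc_ent hω hco hdM D hd hdp hE N hN g hg τ hτd b hbτ c j i hi.le x.1 y.1 hx.1 hy.1 hx.2 hy.2
  have h3 := congrArg Matrix.det h1
  rw [Matrix.det_smul, Matrix.det_smul] at h3
  intro h0
  rw [h0, mul_zero] at h3
  have h4 : (hm p ω (i * (p - 1) / d) i (tw p j (τ.map (algebraMap F k)))).det ≠ 0 := by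
    unfold tw
    rw [fc_det, fc_det]
    exact (_root_.map_ne_zero _).2 ((_root_.map_ne_zero _).2 (hH i hi))
  exact (mul_ne_zero (pow_ne_zero _ (pow_ne_zero _ hc)) h4) h3.symm

private theorem fc_last {p M d : ℕ} [Fact p.Prime] {F k O : Type} [Field F] [Field k] [Algebra F k] [CharP k p]
    {ω : ℕ × ℕ} (hω : (1, 1) ≤ ω) (hco : ω.1.Coprime ω.2) (hdM : d = ω.1 * ω.2 * M)
    [CommRing O] (D : DR p (d * (p - 1)) k O) (hd : d ≠ 0) (hdp : d ∣ p - 1) {E : ℕ → O}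
    (hE : ∀ n < p, (n.factorial : O) * E n = 1) (N : ℕ) (hN : p ≤ N + 1) (g : O) (hg : D.res g = 1) (τ : F[X])
    (hτd : τ.natDegree = M) (b : ℕ × ℕ → k)
    (hbτ : ∀ l ≤ M, b (ω.2 * l, ω.1 * (M - l)) = algebraMap F k (τ.coeff l)) (c : ℕ) (hc : (c : k) ≠ 0) (j : ℕ)
    (x y : Fin (M - 1)) (x' y' : ℕ × ℕ) (hx' : x' = (ω.2 * ((x : ℕ) + 1), ω.1 * (M - ((x : ℕ) + 1))))
    (hy' : y' = (ω.2 * ((y : ℕ) + 1), ω.1 * (M - ((y : ℕ) + 1)))) (hx : (1, 1) ≤ x') (hy : (1, 1) ≤ y')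
    (hx1 : ww ω x' = d) (hy1 : ww ω y' = d) :
    -D.res (mt p (FU E N (wtri ω d) fun u => D.w ^ (d - ww ω u) * g * D.tau ((c : k) * b u) ^ p ^ j) x' y') =
      hw p (p - 1) (M - 1) (tw p j (τ.map (algebraMap F k))) x y := by
  have h2 : 0 < ω.2 := hω.2
  have h := fc_ent hω hco hdM D hd hdp hE N hN g hg τ hτd b hbτ c j d le_rfl x' y' hx hy hx1 hy1
  rw [Nat.mul_div_cancel_left _ (Nat.pos_of_ne_zero hd), fc_wil, fc_flt hc, one_mul, neg_one_mul] at h
  rw [h, ← map_pow, hx', hy']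
  have h3 : p * (ω.2 * ((x : ℕ) + 1)) - ω.2 * ((y : ℕ) + 1) = (p * ((x : ℕ) + 1) - ((y : ℕ) + 1)) * ω.2 := by
    rw [Nat.sub_mul]
    congr 1
    · ring
    · ring
  show (expand k ω.2 _).coeff (p * (ω.2 * ((x : ℕ) + 1)) - ω.2 * ((y : ℕ) + 1)) = _
  rw [h3, coeff_expand_mul h2]
  rfl

private theorem fc_rev {k : Type} [Field k] {n : ℕ} (M : Matrix (Fin n) (Fin n) k) :
    M.charpolyRev ≠ 0 ∧ M.charpolyRev.natDegree ≤ n := by
  refine ⟨fun h => ?_, ?_⟩
  · have h1 := M.eval_charpolyRev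
    rw [h, eval_zero] at h1
    exact zero_ne_one h1
  · rw [← Matrix.reverse_charpoly]
    refine (reverse_natDegree_le _).trans ?_
    rw [Matrix.charpoly_natDegree_eq_dim, Fintype.card_fin]

/-- the reduced polynomial -/
private theorem fc_red {k : Type} [Field k] {n M₀ μ : ℕ} (M : Matrix (Fin n) (Fin n) k) (c : k) (hc : c ≠ 0)
    (hμ : M.charpolyRev.rootMultiplicity 1 ≤ μ) :
    C c * X ^ M₀ * M.charpolyRev ≠ 0 ∧ (C c * X ^ M₀ * M.charpolyRev).natDegree ≤ M₀ + n ∧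
      (C c * X ^ M₀ * M.charpolyRev).rootMultiplicity 1 ≤ μ := by
  obtain ⟨h1, h2⟩ := fc_rev M
  have h0 : (C c * X ^ M₀ : k[X]) ≠ 0 := mul_ne_zero (C_ne_zero.2 hc) (pow_ne_zero _ X_ne_zero)
  refine ⟨mul_ne_zero h0 h1, ?_, ?_⟩
  · refine natDegree_mul_le.trans (add_le_add ?_ h2)
    exact natDegree_C_mul_X_pow_le _ _
  · rw [rootMultiplicity_mul (mul_ne_zero h0 h1)]
    have h3 : (C c * X ^ M₀ : k[X]).rootMultiplicity 1 = 0 := by
      apply rootMultiplicity_eq_zero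
      intro h
      rw [IsRoot.def, eval_mul, eval_C, eval_pow, eval_X, one_pow, mul_one] at h
      exact hc h
    rw [h3, zero_add]
    exact hμ

theorem one_of {p M d a : ℕ} [Fact p.Prime] {F k O : Type} [Field F] [Finite F] [Field k] [Algebra F k] [CharP k p]
    [IsAlgClosed k] [CommRing O] [IsDomain O] [CharZero O] (hq : Nat.card F = p ^ a) {ω : ℕ × ℕ} (hω : (1, 1) ≤ ω)
    (hco : ω.1.Coprime ω.2) (hdM : d = ω.1 * ω.2 * M) (hM0 : M ≠ 0) (D : DR p (d * (p - 1)) k O) (hdp : d ∣ p - 1)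
    {E : ℕ → O} (hE : AH p E) (N : ℕ) (hN : p ≤ N + 1) (g : O) (hg : D.res g = 1) (τ : F[X]) (hτd : τ.natDegree = M)
    (hτ : τ.Separable) (hH : ∀ i < d, (hm p ω (i * (p - 1) / d) i τ).det ≠ 0) (b : ℕ × ℕ → k)
    (hb : ∀ u, b u ^ p ^ a = b u) (hbτ : ∀ l ≤ M, b (ω.2 * l, ω.1 * (M - l)) = algebraMap F k (τ.coeff l)) (c : ℕ)
    (hc : c ∈ Finset.Ico 1 p) :
    One D (p ^ a) (kap D ω d a)
      (fun r => ∑ t ∈ fx k (p ^ (a * r)), ∑ x ∈ fx k (p ^ (a * r)), ∏ j ∈ Finset.range (a * r), ∏ u ∈ wtri ω d,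
        th E N (D.w ^ d * g * D.tau ((c : k) * b u * t ^ u.1 * x ^ u.2) ^ p ^ j))
      (((bx d (1, 1)).filter fun u => ww ω u < d).card + (M - 1)) (nf τ - 1) := by
  have hp : p.Prime := Fact.out
  have hp1 : 1 ≤ p - 1 := by
    have := hp.two_le
    omega
  have hω1 : 1 ≤ ω.1 := hω.1
  have hω2 : 1 ≤ ω.2 := hω.2
  have hd : d ≠ 0 := by
    rw [hdM]
    exact mul_ne_zero (mul_ne_zero (by omega) (by omega)) hM0
  have hMd : M ≤ d := by
    rw [hdM]
    exact Nat.le_mul_of_pos_left _ (Nat.mul_pos hω1 hω2)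
  have hdp1 : d ≤ p - 1 := Nat.le_of_dvd (by omega) hdp
  have ha : a ≠ 0 := by
    rintro rfl
    have h1 : 1 < Nat.card F := Finite.one_lt_card
    rw [hq, pow_zero] at h1
    exact lt_irrefl _ h1
  have he : d * (p - 1) ≠ 0 := Nat.mul_ne_zero hd (by omega)
  have hEf : ∀ n < p, (n.factorial : O) * E n = 1 := fun n hn => ah_fact hE n hn
  have hc0 : (c : k) ≠ 0 := fc_cne (p := p) hc
  have hUw : ∀ u ∈ wtri ω d, ww ω u ≤ d := fun u hu => (mem_wtri hω).1 hu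
  obtain ⟨B, hB⟩ : ∃ B, B = (wtri ω d).card * (N * d) + d := ⟨_, rfl⟩
  have hdB : d ≤ B := by omega
  obtain ⟨G, hG⟩ : ∃ G : ℕ → MvPolynomial (Fin 2) O,
      G = fun j => FU E N (wtri ω d) fun u => D.w ^ d * g * D.tau ((c : k) * b u) ^ p ^ j := ⟨_, rfl⟩
  have hGa : ∀ j, G (j + a) = G j := by
    intro j
    rw [hG]
    show FU E N (wtri ω d) (fun u => D.w ^ d * g * D.tau ((c : k) * b u) ^ p ^ (j + a)) =
      FU E N (wtri ω d) (fun u => D.w ^ d * g * D.tau ((c : k) * b u) ^ p ^ j)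
    congr 1
    funext u
    rw [pow_add, mul_comm (p ^ j), pow_mul, ← map_pow D.tau ((c : k) * b u) (p ^ a), mul_pow, fc_cast, hb]
  have hGB : ∀ j u, co (G j) u ≠ 0 → wt u ≤ (p - 1) * B := by
    intro j u hu
    rw [hG] at hu
    have h1 := wt_FU E N d (wtri ω d) (fun u hu => (wt_le_ww hω u).trans (hUw u hu)) _ u hu
    have h2 : B ≤ (p - 1) * B := Nat.le_mul_of_pos_left _ (by omega)
    omega
  have hscale : ∀ (ε : ℕ × ℕ) (j : ℕ) (u v : bx B ε), D.w ^ ww ω v.1 * mtx p (G j) B ε u v =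
      D.w ^ (p * ww ω u.1) * (Matrix.of fun u v : bx B ε =>
        mt p (FU E N (wtri ω d) fun u => D.w ^ (d - ww ω u) * g * D.tau ((c : k) * b u) ^ p ^ j) u.1 v.1) u v := by
    intro ε j u v
    rw [hG]
    exact ent_scale D E N d ω (wtri ω d) hUw g (fun u => (c : k) * b u) j u.1 v.1
  have hW10 : ∀ u : bx B (1, 0), 1 ≤ ww ω u.1 := by
    intro u
    have h1 := (mem_bx.1 u.2).1
    have h2 : 1 ≤ u.1.1 := h1.1
    exact (show 1 ≤ wt u.1 by unfold wt; omega).trans (wt_le_ww hω _)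
  have hW01 : ∀ u : bx B (0, 1), 1 ≤ ww ω u.1 := by
    intro u
    have h1 := (mem_bx.1 u.2).1
    have h2 : 1 ≤ u.1.2 := h1.2
    exact (show 1 ≤ wt u.1 by unfold wt; omega).trans (wt_le_ww hω _)
  have hW11 : ∀ u : bx B (1, 1), 1 ≤ ww ω u.1 := by
    intro u
    have h1 := (mem_bx.1 u.2).1
    have h2 : 1 ≤ u.1.1 := h1.1
    exact (show 1 ≤ wt u.1 by unfold wt; omega).trans (wt_le_ww hω _)
  obtain ⟨H, c', hc', hH1, hH2⟩ := ldb D hd ha (fun u : bx B (1, 1) => ww ω u.1) hW11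
    (fun j => mtx p (G j) B (1, 1)) (fun j => Matrix.of fun u v : bx B (1, 1) =>
        mt p (FU E N (wtri ω d) fun u => D.w ^ (d - ww ω u) * g * D.tau ((c : k) * b u) ^ p ^ j) u.1 v.1)
    (hscale (1, 1)) (fun j u v huv => ent_res0 D E N d ω hω (wtri ω d) hUw hd hdp hEf hN g hg
      (fun u => (c : k) * b u) j u.1 v.1 huv)
    (fun j i hi => by
      obtain ⟨e, he'⟩ := exists_ln hω B i (by omega)
      rw [← Matrix.det_submatrix_equiv_self e]
      refine fc_blk hω hco hdM D hd hdp hEf N hN g hg τ hτd hH b hbτ c hc0 j i hi _ fun x y => ?_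
      simp only [Matrix.submatrix_apply, Matrix.map_apply, Matrix.of_apply, he'])
  obtain ⟨e, he'⟩ : ∃ e : Fin (M - 1) ≃ {u : bx B (1, 1) // ww ω u.1 = d},
      ∀ j : Fin (M - 1), (e j).1.1 = (ω.2 * ((j : ℕ) + 1), ω.1 * (M - ((j : ℕ) + 1))) := by
    rw [hdM]
    exact exists_lm hω hco B M (by rw [← hdM]; exact hdB)
  have hH3 : (pm (fun j => -(((Matrix.of fun u v : bx B (1, 1) =>
        mt p (FU E N (wtri ω d) fun u => D.w ^ (d - ww ω u) * g * D.tau ((c : k) * b u) ^ p ^ j) u.1 v.1).map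
        D.res).submatrix (Subtype.val : {u : bx B (1, 1) // ww ω u.1 = d} → bx B (1, 1)) Subtype.val)) a).charpolyRev =
      (pm (fun j => hw p (p - 1) (M - 1) (tw p j (τ.map (algebraMap F k)))) a).charpolyRev := by
    rw [← charpolyRev_submatrix e, pm_submatrix]
    congr 2
    funext j
    ext x y
    rw [← fc_last hω hco hdM D hd hdp hEf N hN g hg τ hτd b hbτ c hc0 j x y (e x).1.1 (e y).1.1 (he' x) (he' y)
      (mem_bx.1 (e x).1.2).1 (mem_bx.1 (e y).1.2).1 (e x).2 (e y).2]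
    simp only [Matrix.submatrix_apply, Matrix.neg_apply, Matrix.map_apply, Matrix.of_apply]
  have hct := ct_final (k := k) hq τ hτ hτd hM0 (by omega : M < p)
  obtain ⟨r1, r2, r3⟩ := fc_red (M₀ := ((bx d (1, 1)).filter fun u => ww ω u < d).card)
    (pm (fun j => hw p (p - 1) (M - 1) (tw p j (τ.map (algebraMap F k)))) a) c' hc' hct
  have hH4 : H.map D.res = C c' * X ^ ((bx d (1, 1)).filter fun u => ww ω u < d).card *
      (pm (fun j => hw p (p - 1) (M - 1) (tw p j (τ.map (algebraMap F k)))) a).charpolyRev := by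
    rw [hH2, card_lt hω B d hdB, ← hH3]
  refine ⟨(pm (fun j => mtx p (G j) B (0, 0)) a).charpolyRev,
    (pm (fun j => mtx p (G j) B (1, 0)) a).charpolyRev,
    (pm (fun j => mtx p (G j) B (0, 1)) a).charpolyRev,
    (pm (fun j => mtx p (G j) B (1, 1)) a).charpolyRev, H, _, _, _, _,
    isZ_charpolyRev _, isZ_charpolyRev _, isZ_charpolyRev _, isZ_charpolyRev _, ?_, ?_, ?_, ?_, ?_, ?_, ?_⟩
  · intro r hr
    have h1 := trace_formula D a r B ha hr G hGa hGB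
    have h2 : ∀ t x : k, ∀ j : ℕ, MvPolynomial.eval ![D.tau t ^ p ^ j, D.tau x ^ p ^ j] (G j) =
        ∏ u ∈ wtri ω d, th E N (D.w ^ d * g * D.tau ((c : k) * b u * t ^ u.1 * x ^ u.2) ^ p ^ j) := by
      intro t x j
      rw [hG]
      show MvPolynomial.eval ![D.tau t ^ p ^ j, D.tau x ^ p ^ j]
        (FU E N (wtri ω d) fun u => D.w ^ d * g * D.tau ((c : k) * b u) ^ p ^ j) = _
      rw [eval_FU]
      refine Finset.prod_congr rfl fun u _ => ?_
      congr 1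
      simp only [map_mul, map_pow]
      ring
    simp only [h2] at h1
    show (∑ t ∈ fx k (p ^ (a * r)), ∑ x ∈ fx k (p ^ (a * r)), ∏ j ∈ Finset.range (a * r), ∏ u ∈ wtri ω d,
        th E N (D.w ^ d * g * D.tau ((c : k) * b u * t ^ u.1 * x ^ u.2) ^ p ^ j)) = _
    rw [h1]
    push_cast
    ring
  · rw [← Nat.cast_pow] at hH1
    rw [hH1]
    congr 2
    unfold kap
    congr 1
    exact prod_lt hω B d hdB fun i => -(D.w ^ (p - 1)) ^ (d - i)
  · exact res_one D he ha (fun u : bx B (1, 0) => ww ω u.1) hW10 _ _ (hscale (1, 0))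
  · exact res_one D he ha (fun u : bx B (0, 1) => ww ω u.1) hW01 _ _ (hscale (0, 1))
  · rw [hH4]
    exact r1
  · rw [hH4]
    exact r2
  · rw [hH4]
    exact r3

end H45.AW

end
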