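import Pool.Agent.H45.AW.FC
import Pool.Agent.H45.AT.HSb

/-!
# AW-HS: binomial leading forms, cubic leading forms
-/

set_option autoImplicit false

open Polynomial

noncomputable section

namespace H45.AW

open H45.AT

private theorem coeff_lin {F : Type} [Field F] (α β : F) (n s : ℕ) :
    ((C α * X + C β) ^ n : F[X]).coeff s = (n.choose s : F) * α ^ s * β ^ (n - s) := by
  rw [add_pow, finsetSum_coeff]
  have h : ∀ k ∈ Finset.range (n + 1),
      ((C α * X : F[X]) ^ k * C β ^ (n - k) * ((n.choose k : ℕ) : F[X])).coeff s =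
        if s = k then (n.choose s : F) * α ^ s * β ^ (n - s) else 0 := by
    intro k _
    have e1 : ((C α * X : F[X]) ^ k * C β ^ (n - k) * ((n.choose k : ℕ) : F[X])) =
        C ((n.choose k : F) * α ^ k * β ^ (n - k)) * X ^ k := by
      rw [mul_pow, ← C_pow, ← C_pow]
      simp only [C_mul, C_pow, map_natCast]
      ring
    rw [e1, coeff_C_mul, coeff_X_pow]
    split_ifs with h
    · subst h; ring
    · ring
  rw [Finset.sum_congr rfl h, Finset.sum_ite_eq]
  split_ifs with h1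
  · rfl
  · have : n.choose s = 0 := Nat.choose_eq_zero_of_lt (by
      simpa [Finset.mem_range, Nat.lt_succ_iff] using h1)
    simp [this]

private theorem coeff_fer {F : Type} [Field F] (α β : F) (d n t : ℕ) (hd : 0 < d) :
    ((C α * X ^ d + C β) ^ n : F[X]).coeff t =
      if d ∣ t then (n.choose (t / d) : F) * α ^ (t / d) * β ^ (n - t / d) else 0 := by
  have e : ((C α * X ^ d + C β) ^ n : F[X]) = expand F d ((C α * X + C β) ^ n) := by
    simp [map_pow, map_add, map_mul, expand_C, expand_X]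
  rw [e, coeff_expand hd]
  split_ifs with h
  · exact coeff_lin α β n _
  · rfl

theorem hs_binom {p M d : ℕ} [Fact p.Prime] {F : Type} [Field F] [CharP F p] {ω : ℕ × ℕ} (hω : (1, 1) ≤ ω)
    (hdM : d = ω.1 * ω.2 * M) (hdp : d ∣ p - 1) (α β : F) (hα : α ≠ 0) (hβ : β ≠ 0) (i : ℕ) (hi : i < d) :
    (hm p ω (i * (p - 1) / d) i (C α * X ^ M + C β)).det ≠ 0 := by
  have hp : p.Prime := Fact.out
  obtain ⟨e, he⟩ := hdp
  have hd0 : 0 < d := by omega
  have hω1 : 1 ≤ ω.1 := hω.1
  have hω2 : 1 ≤ ω.2 := hω.2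
  have hp1 : 1 ≤ p := hp.one_le
  have hpe : p = d * e + 1 := by omega
  have hn : i * (p - 1) / d = i * e := by
    rw [he, show i * (d * e) = i * e * d by ring]
    exact Nat.mul_div_cancel _ hd0
  obtain ⟨m, hm'⟩ : ∃ m, m = ω.2 * M := ⟨_, rfl⟩
  have hdm : d = ω.1 * m := by rw [hdM, hm', mul_assoc]
  have hm0 : 0 < m := by
    rcases Nat.eq_zero_or_pos m with h | h
    · rw [hdm, h, mul_zero] at hd0
      exact absurd hd0 (lt_irrefl _)
    · exact h
  rw [hn]
  have hpoly : expand F ω.2 (C α * X ^ M + C β) = (C α * X ^ m + C β : F[X]) := by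
    rw [map_add, map_mul, expand_C, expand_C, map_pow, expand_X, ← pow_mul, hm']
  have hlt : ∀ u : ln ω i, u.1.1 < m := by
    intro u
    have h1 : ω.1 * u.1.1 + ω.2 * u.1.2 = i := ((mem_ln hω).1 u.2).2
    by_contra h
    push Not at h
    have h2 := Nat.mul_le_mul_left ω.1 h
    rw [← hdm] at h2
    omega
  have key : ∀ x : ℕ, p * x = m * (ω.1 * e * x) + x := by
    intro x
    rw [hpe, hdm]
    ring
  have hdiag : hm p ω (i * e) i (C α * X ^ M + C β : F[X]) =
      Matrix.diagonal (fun u : ln ω i => (((i * e).choose (ω.1 * e * u.1.1) : ℕ) : F) *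
        α ^ (ω.1 * e * u.1.1) * β ^ (i * e - ω.1 * e * u.1.1)) := by
    ext u v
    simp only [hm, Matrix.of_apply]
    rw [hpoly, coeff_fer α β m _ _ hm0]
    by_cases huv : u = v
    · subst huv
      have h1 : p * u.1.1 - u.1.1 = m * (ω.1 * e * u.1.1) := by
        rw [key]
        omega
      rw [h1, if_pos (Dvd.intro _ rfl), Nat.mul_div_cancel_left _ hm0, Matrix.diagonal_apply_eq]
    · rw [Matrix.diagonal_apply_ne _ huv, if_neg]
      intro hdv
      apply huv
      have hu1 : 1 ≤ u.1.1 := ((mem_ln hω).1 u.2).1.1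
      have e1 : ω.1 * u.1.1 + ω.2 * u.1.2 = i := ((mem_ln hω).1 u.2).2
      have e2 : ω.1 * v.1.1 + ω.2 * v.1.2 = i := ((mem_ln hω).1 v.2).2
      have hle : v.1.1 ≤ p * u.1.1 := by
        have h1 := hlt v
        have h2 : m ≤ d := by
          rw [hdm]
          exact Nat.le_mul_of_pos_left _ hω1
        have h3 : d ≤ p * u.1.1 := by
          have h4 : d ≤ p := by
            have h5 : 1 ≤ e := by
              rcases Nat.eq_zero_or_pos e with h | h
              · rw [h, mul_zero] at hpe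
                exact absurd hpe hp.one_lt.ne'
              · exact h
            have := Nat.mul_le_mul_left d h5
            omega
          exact h4.trans (Nat.le_mul_of_pos_right _ hu1)
        omega
      have h2 : (m : ℤ) ∣ ((p * u.1.1 - v.1.1 : ℕ) : ℤ) := Int.natCast_dvd_natCast.mpr hdv
      rw [Nat.cast_sub hle, key] at h2
      have h3 : (m : ℤ) ∣ (u.1.1 : ℤ) - (v.1.1 : ℤ) := by
        have h4 : (((m * (ω.1 * e * u.1.1) + u.1.1 : ℕ) : ℤ) - ((v.1.1 : ℕ) : ℤ)) =
            (m : ℤ) * (ω.1 * e * u.1.1) + ((u.1.1 : ℤ) - (v.1.1 : ℤ)) := by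
          push_cast; ring
        rw [h4] at h2
        exact (dvd_add_right (Dvd.intro _ rfl)).mp h2
      have hu := hlt u
      have hv := hlt v
      have h5 := Int.eq_zero_of_abs_lt_dvd h3 (by
        rw [abs_lt]
        constructor <;> omega)
      have h6 : u.1.1 = v.1.1 := by omega
      have h7 : ω.2 * u.1.2 = ω.2 * v.1.2 := by
        rw [h6] at e1
        omega
      exact Subtype.ext (Prod.ext h6 (Nat.eq_of_mul_eq_mul_left hω2 h7))
  rw [hdiag, Matrix.det_diagonal]
  refine Finset.prod_ne_zero_iff.mpr fun u _ => ?_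
  refine mul_ne_zero (mul_ne_zero ?_ (pow_ne_zero _ hα)) (pow_ne_zero _ hβ)
  have hle : ω.1 * e * u.1.1 ≤ i * e := by
    have e1 : ω.1 * u.1.1 + ω.2 * u.1.2 = i := ((mem_ln hω).1 u.2).2
    have h1 : ω.1 * u.1.1 ≤ i := by omega
    calc ω.1 * e * u.1.1 = ω.1 * u.1.1 * e := by ring
      _ ≤ i * e := Nat.mul_le_mul_right _ h1
  have hlt2 : i * e < p := by
    have : i * e ≤ d * e := Nat.mul_le_mul_right _ hi.le
    omega
  intro h0
  rw [CharP.cast_eq_zero_iff F p] at h0
  have h1 : p ∣ (i * e).factorial := by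
    rw [← Nat.choose_mul_factorial_mul_factorial hle]
    exact Dvd.dvd.mul_right (Dvd.dvd.mul_right h0 _) _
  rw [hp.dvd_factorial] at h1
  omega

theorem hs_cub {p : ℕ} [Fact p.Prime] {F : Type} [Field F] [CharP F p] (h3 : 3 ∣ p - 1) (τ : F[X]) (hτ : τ.Separable)
    (hd : τ.natDegree = 3) (i : ℕ) (hi : i < 3) : (hm p (1, 1) (i * (p - 1) / 3) i τ).det ≠ 0 := by
  have hω : ((1, 1) : ℕ × ℕ) ≤ (1, 1) := le_rfl
  rcases Nat.lt_or_ge i 2 with h2 | h2
  · have : IsEmpty (ln (1, 1) i) := by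
      constructor
      rintro ⟨⟨x, y⟩, hu⟩
      obtain ⟨⟨h4, h5⟩, h6⟩ := (mem_ln hω).1 hu
      have h4' : 1 ≤ x := h4
      have h5' : 1 ≤ y := h5
      have h6' : 1 * x + 1 * y = i := h6
      omega
    rw [Matrix.det_isEmpty]
    exact one_ne_zero
  · have hi2 : i = 2 := by omega
    subst hi2
    have h4 := hs_cubic h3 τ hτ hd
    have hu : ((1, 1) : ℕ × ℕ) ∈ ln (1, 1) 2 := (mem_ln hω).2 ⟨le_rfl, rfl⟩
    let e : Fin 1 ≃ ln (1, 1) 2 := ⟨fun _ => ⟨(1, 1), hu⟩, fun _ => 0, fun j => (Subsingleton.elim _ _), fun v => by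
      obtain ⟨⟨x, y⟩, hv⟩ := v
      obtain ⟨⟨h5, h6⟩, h7⟩ := (mem_ln hω).1 hv
      have h5' : 1 ≤ x := h5
      have h6' : 1 ≤ y := h6
      have h7' : 1 * x + 1 * y = 2 := h7
      apply Subtype.ext
      exact Prod.ext (show 1 = x by omega) (show 1 = y by omega)⟩
    rw [← Matrix.det_submatrix_equiv_self e]
    convert h4 using 1
    congr 1
    ext j j'
    have hj : (j : ℕ) = 0 := by omega
    have hj' : (j' : ℕ) = 0 := by omega
    show ((expand F 1 τ) ^ (2 * (p - 1) / 3)).coeff (p * 1 - 1) = (τ ^ (2 * (p - 1) / 3)).coeff (p * ((j : ℕ) + 1) - ((j' : ℕ) + 1))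
    rw [expand_one, hj, hj']

end H45.AW

end
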