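import Pool.Agent.H45.AW.ENa
import Pool.Agent.H45.AT.IX

/-!
# AW-IX: the monomials of a given weight (the general form of `H45/AT/IX`)
-/

set_option autoImplicit false

open Polynomial

noncomputable section

namespace H45.AW

open H45.AT

/-- The exponents `u ≥ (1, 1)` of weight `k`. -/
def ln (ω : ℕ × ℕ) (k : ℕ) : Finset (ℕ × ℕ) :=
  (Finset.range (k + 1) ×ˢ Finset.range (k + 1)).filter fun u => 1 ≤ u.1 ∧ 1 ≤ u.2 ∧ ω.1 * u.1 + ω.2 * u.2 = k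

theorem mem_ln {ω : ℕ × ℕ} (hω : (1, 1) ≤ ω) {k : ℕ} {u : ℕ × ℕ} : u ∈ ln ω k ↔ (1, 1) ≤ u ∧ ww ω u = k := by
  unfold ln
  rw [Finset.mem_filter, Finset.mem_product, Finset.mem_range, Finset.mem_range]
  constructor
  · rintro ⟨_, h1, h2, h3⟩
    exact ⟨⟨h1, h2⟩, h3⟩
  · rintro ⟨⟨h1, h2⟩, h3⟩
    have h4 := wt_le_ww hω u
    rw [h3] at h4
    have h5 : u.1 + u.2 ≤ k := h4
    exact ⟨⟨by omega, by omega⟩, h1, h2, h3⟩

theorem exists_ln {ω : ℕ × ℕ} (hω : (1, 1) ≤ ω) (B i : ℕ) (hi : i ≤ B) :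
    ∃ e : ln ω i ≃ {u : bx B (1, 1) // ww ω u.1 = i}, ∀ u : ln ω i, (e u).1.1 = u.1 := by
  refine ⟨⟨fun u => ⟨⟨u.1, mem_bx.2 ⟨((mem_ln hω).1 u.2).1, ?_⟩⟩, ((mem_ln hω).1 u.2).2⟩,
    fun u => ⟨u.1.1, (mem_ln hω).2 ⟨(mem_bx.1 u.1.2).1, u.2⟩⟩, fun u => rfl, fun u => rfl⟩, fun u => rfl⟩
  have h1 := wt_le_ww hω u.1
  rw [((mem_ln hω).1 u.2).2] at h1
  exact h1.trans hi

theorem exists_lm {ω : ℕ × ℕ} (hω : (1, 1) ≤ ω) (hc : ω.1.Coprime ω.2) (B M : ℕ) (hB : ω.1 * ω.2 * M ≤ B) :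
    ∃ e : Fin (M - 1) ≃ {u : bx B (1, 1) // ww ω u.1 = ω.1 * ω.2 * M},
      ∀ j : Fin (M - 1), (e j).1.1 = (ω.2 * ((j : ℕ) + 1), ω.1 * (M - ((j : ℕ) + 1))) := by
  have h1 : 1 ≤ ω.1 := hω.1
  have h2 : 1 ≤ ω.2 := hω.2
  have hww : ∀ j : Fin (M - 1), ww ω (ω.2 * ((j : ℕ) + 1), ω.1 * (M - ((j : ℕ) + 1))) = ω.1 * ω.2 * M := by
    intro j
    have hj := j.2
    obtain ⟨m, hm⟩ : ∃ m, (j : ℕ) + 1 + m = M := ⟨M - ((j : ℕ) + 1), by omega⟩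
    have h3 : M - ((j : ℕ) + 1) = m := by omega
    show ω.1 * (ω.2 * ((j : ℕ) + 1)) + ω.2 * (ω.1 * (M - ((j : ℕ) + 1))) = ω.1 * ω.2 * M
    have h4 : ∀ s m : ℕ, ω.1 * (ω.2 * s) + ω.2 * (ω.1 * m) = ω.1 * ω.2 * (s + m) := fun s m => by ring
    rw [h3, h4, hm]
  have hmem : ∀ j : Fin (M - 1), (ω.2 * ((j : ℕ) + 1), ω.1 * (M - ((j : ℕ) + 1))) ∈ bx B (1, 1) := by
    intro j
    have hj := j.2
    refine mem_bx.2 ⟨⟨Nat.mul_pos h2 (by omega), Nat.mul_pos h1 (by omega)⟩, ?_⟩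
    exact (wt_le_ww hω _).trans ((hww j).le.trans hB)
  refine ⟨Equiv.ofBijective (fun j => ⟨⟨_, hmem j⟩, hww j⟩) ⟨?_, ?_⟩, fun j => rfl⟩
  · intro j j' h
    have h3 := congrArg (fun v : {u : bx B (1, 1) // ww ω u.1 = ω.1 * ω.2 * M} => v.1.1.1) h
    have h4 : ω.2 * ((j : ℕ) + 1) = ω.2 * ((j' : ℕ) + 1) := h3
    have h5 := Nat.eq_of_mul_eq_mul_left h2 h4
    exact Fin.ext (by omega)
  · rintro ⟨⟨⟨x, y⟩, hu⟩, hw⟩
    have h3 := (mem_bx.1 hu).1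
    have h4 : 1 ≤ x := h3.1
    have h5 : 1 ≤ y := h3.2
    have h6 : ω.1 * x + ω.2 * y = ω.1 * ω.2 * M := hw
    have h7 : ω.2 ∣ x := by
      have h8 : ω.2 ∣ ω.1 * x := by
        have h9 : ω.2 ∣ ω.1 * x + ω.2 * y := by
          rw [h6]
          exact ⟨ω.1 * M, by ring⟩
        exact (Nat.dvd_add_left (dvd_mul_right _ _)).1 h9
      exact (Nat.Coprime.dvd_of_dvd_mul_left hc.symm h8)
    obtain ⟨s, rfl⟩ := h7
    have hs : 1 ≤ s := by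
      rcases Nat.eq_zero_or_pos s with rfl | h
      · rw [mul_zero] at h4
        omega
      · exact h
    have h8 : ω.2 * (ω.1 * s + y) = ω.2 * (ω.1 * M) := by
      rw [mul_add, ← mul_assoc, mul_comm ω.2 ω.1]
      rw [← mul_assoc] at h6
      rw [h6]
      ring
    have h9 := Nat.eq_of_mul_eq_mul_left h2 h8
    have h10 : s < M := by
      by_contra h
      push Not at h
      have := Nat.mul_le_mul_left ω.1 h
      omega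
    have h11 : y = ω.1 * (M - s) := by
      rw [Nat.mul_sub]
      omega
    refine ⟨⟨s - 1, by omega⟩, ?_⟩
    apply Subtype.ext
    apply Subtype.ext
    refine Prod.ext ?_ ?_
    · show ω.2 * (s - 1 + 1) = ω.2 * s
      rw [Nat.sub_add_cancel hs]
    · show ω.1 * (M - (s - 1 + 1)) = y
      rw [Nat.sub_add_cancel hs, h11]

private theorem mem_aux {ω : ℕ × ℕ} (hω : (1, 1) ≤ ω) (B d : ℕ) (hd : d ≤ B) (u : ℕ × ℕ) (hu : ww ω u < d) :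
    u ∈ bx B (1, 1) ↔ u ∈ bx d (1, 1) := by
  have h1 := wt_le_ww hω u
  rw [mem_bx, mem_bx]
  constructor
  · rintro ⟨h2, _⟩
    exact ⟨h2, by omega⟩
  · rintro ⟨h2, _⟩
    exact ⟨h2, by omega⟩

theorem prod_lt {R : Type} [CommRing R] {ω : ℕ × ℕ} (hω : (1, 1) ≤ ω) (B d : ℕ) (hd : d ≤ B) (f : ℕ → R) :
    ∏ u ∈ Finset.univ.filter (fun u : bx B (1, 1) => ww ω u.1 < d), f (ww ω u.1) =
      ∏ u ∈ (bx d (1, 1)).filter (fun u => ww ω u < d), f (ww ω u) := by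
  refine Finset.prod_bij (fun u _ => u.1) ?_ ?_ ?_ fun _ _ => rfl
  · intro u hu
    have h2 := (Finset.mem_filter.1 hu).2
    exact Finset.mem_filter.2 ⟨(mem_aux hω B d hd u.1 h2).1 u.2, h2⟩
  · intro u _ v _ h
    exact Subtype.ext h
  · intro u hu
    obtain ⟨h1, h2⟩ := Finset.mem_filter.1 hu
    exact ⟨⟨u, (mem_aux hω B d hd u h2).2 h1⟩, Finset.mem_filter.2 ⟨Finset.mem_univ _, h2⟩, rfl⟩

theorem card_lt {ω : ℕ × ℕ} (hω : (1, 1) ≤ ω) (B d : ℕ) (hd : d ≤ B) :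
    (Finset.univ.filter fun u : bx B (1, 1) => ww ω u.1 < d).card =
      ((bx d (1, 1)).filter fun u => ww ω u < d).card := by
  refine Finset.card_bij (fun u _ => u.1) ?_ ?_ ?_
  · intro u hu
    have h2 := (Finset.mem_filter.1 hu).2
    exact Finset.mem_filter.2 ⟨(mem_aux hω B d hd u.1 h2).1 u.2, h2⟩
  · intro u _ v _ h
    exact Subtype.ext h
  · intro u hu
    obtain ⟨h1, h2⟩ := Finset.mem_filter.1 hu
    exact ⟨⟨u, (mem_aux hω B d hd u h2).2 h1⟩, Finset.mem_filter.2 ⟨Finset.mem_univ _, h2⟩, rfl⟩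

end H45.AW

end
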